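import Pool.Agent.Q157.OM.Stm
import Pool.Agent.Q157.OM.All

/-!
# Cliques of pairwise non-harmonious patterns in random ordered matchings

For every `r ≥ 1` and every set `Ps` of `r`-patterns (three or any other number of them) which are
pairwise non-harmonious and at least one of which is collectable, the largest number of edges of a
`Ps`-clique in the uniformly random ordered `r`-matching on `{1, …, r n}` is, with probability tending
to `1`, between `c n^(1/r)` and `C n^(1/r)`.

Proof. A clique with `k` edges on `{1, …, r k}` is determined by a word over `r` letters and by the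
permutations comparing the `i`-th elements of its edges (sorted by the first elements), `i < r`. For
fixed `i` these permutations form a class closed under taking patterns. If it contained all the
permutations, Ramsey's theorem in a grid would give two patterns `P0`, `P1` in `Ps` such that every
permutation occurs with `P0` at all the non-inversions and `P1` at all the inversions. Both are
collectable, and they have the same composition (a cycle with four vertices is not an interval graph), so
they are harmonious. Hence some permutation does not occur, and by the Marcus-Tardos theorem the number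
of the cliques is at most exponential in `k`. The upper bound is the first moment method; the lower bound
is proved by choosing the edge of a vertex with many transversals, one after the other.
-/

set_option autoImplicit false

namespace Pool.Agent.Results.MP_d24be6_pr.PairwiseNonHarmonious

open Finset Filter Topology Pool.Agent.Q157.OM

theorem result (r : ℕ) (hr : 1 ≤ r) (Ps : Set (List Letter)) (hPs : ∀ P ∈ Ps, IsPattern r P)
    (hnh : ∀ P ∈ Ps, ∀ Q ∈ Ps, ¬ Harmonious r P Q) (hc : ∃ P ∈ Ps, Collectable r P) :
    ∃ c C : ℝ, 0 < c ∧ c ≤ C ∧ Tendsto (fun n : ℕ => prob r n (fun M =>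
      c * (n : ℝ) ^ (1 / r : ℝ) ≤ (z Ps M : ℝ) ∧ (z Ps M : ℝ) ≤ C * (n : ℝ) ^ (1 / r : ℝ)))
      atTop (𝓝 1) := by
  obtain ⟨c, C, hc0, hC0, h⟩ := a_final r Ps hr hPs hnh hc
  refine ⟨c, C, hc0, ?_, h⟩
  obtain ⟨n, hn1, hn⟩ := (((h.eventually (lt_mem_nhds (by norm_num : (0 : ℝ) < 1))).and
    (eventually_ge_atTop 1))).exists
  unfold prob at hn1
  have hcard : Nat.card {M : Finset (Finset ℕ) // IsMatching r (Icc 1 (r * n)) M ∧
      (c * (n : ℝ) ^ (1 / r : ℝ) ≤ (z Ps M : ℝ) ∧ (z Ps M : ℝ) ≤ C * (n : ℝ) ^ (1 / r : ℝ))} ≠ 0 := by
    intro h0
    rw [h0] at hn1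
    simp at hn1
  obtain ⟨⟨M, -, h1, h2⟩⟩ := (Nat.card_ne_zero.1 hcard).1
  have hx : (0 : ℝ) < (n : ℝ) ^ (1 / r : ℝ) := Real.rpow_pos_of_pos (by exact_mod_cast hn) _
  exact le_of_mul_le_mul_right (h1.trans h2) hx

end Pool.Agent.Results.MP_d24be6_pr.PairwiseNonHarmonious
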